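import Mathlib

set_option autoImplicit false
set_option linter.unusedSectionVars false

namespace Pool.Agent.Results.MP_dace02_an.BoxDimFails

open MeasureTheory Filter Topology

/-- The `k`-th Fourier coefficient `C_k` of a `1`-periodic function. -/
noncomputable def fc (g : ℝ → ℝ) (k : ℤ) : ℂ :=
  ∫ x in (0 : ℝ)..1, (g x : ℂ) * Complex.exp (-(2 * Real.pi * k * x) * Complex.I)

/-- `G_δ(x) = ∑_{n ≥ 1} g(n² x) / n^(1+δ)`. -/
noncomputable def G (δ : ℝ) (g : ℝ → ℝ) (x : ℝ) : ℝ :=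
  ∑' n : ℕ, g (((n : ℝ) + 1) ^ 2 * x) / ((n : ℝ) + 1) ^ (1 + δ)

/-- Condition (H). -/
def CondH (δ : ℝ) (g : ℝ → ℝ) : Prop :=
  ∃ ε : ℝ, 0 < ε ∧ Summable (fun k : ℕ => ‖fc g ((k : ℤ) + 1)‖ * ((k : ℝ) + 1) ^ ((ε + δ) / 2))

/-- Condition (NV). -/
def CondNV (δ : ℝ) (g : ℝ → ℝ) : Prop :=
  ∃ d : ℕ, 0 < d ∧ Squarefree d ∧
    ∑' m : ℕ, fc g (((m : ℤ) + 1) ^ 2 * d) * (((((m : ℝ) + 1) ^ 2 * d) ^ (δ / 2) : ℝ) : ℂ) ≠ 0

/-- The graph of `f` over `[0,1]`. -/
def graphOn (f : ℝ → ℝ) : Set (ℝ × ℝ) := {p | p.1 ∈ Set.Icc (0 : ℝ) 1 ∧ p.2 = f p.1}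

/-- The closed grid square `[i/N,(i+1)/N] × [j/N,(j+1)/N]`. -/
def square (N : ℕ) (i j : ℤ) : Set (ℝ × ℝ) :=
  Set.Icc ((i : ℝ) / N) (((i : ℝ) + 1) / N) ×ˢ Set.Icc ((j : ℝ) / N) (((j : ℝ) + 1) / N)

/-- `A_N(f)`, the number of closed grid squares meeting the graph. -/
noncomputable def boxCount (f : ℝ → ℝ) (N : ℕ) : ℕ :=
  Set.ncard {p : ℤ × ℤ | (square N p.1 p.2 ∩ graphOn f).Nonempty}

/-- Lower box dimension of the graph of `f` over `[0,1]`. -/
noncomputable def lowerBoxDim (f : ℝ → ℝ) : EReal :=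
  liminf (fun N : ℕ => ((Real.log (boxCount f N) / Real.log N : ℝ) : EReal)) atTop

/-- Upper box dimension of the graph of `f` over `[0,1]`. -/
noncomputable def upperBoxDim (f : ℝ → ℝ) : EReal :=
  limsup (fun N : ℕ => ((Real.log (boxCount f N) / Real.log N : ℝ) : EReal)) atTop

/-! ### Counting squares -/

section count

variable {f : ℝ → ℝ} {N : ℕ}

lemma finite_squares (hf : Continuous f) (hN : 0 < N) :
    {p : ℤ × ℤ | (square N p.1 p.2 ∩ graphOn f).Nonempty}.Finite := by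
  have hN' : (0 : ℝ) < N := by exact_mod_cast hN
  obtain ⟨M, hM⟩ := (isCompact_Icc (a := (0 : ℝ)) (b := 1)).exists_bound_of_continuousOn
    hf.continuousOn
  obtain ⟨K, hK⟩ := exists_nat_ge (N * M)
  have hsub : {p : ℤ × ℤ | (square N p.1 p.2 ∩ graphOn f).Nonempty} ⊆
      Set.Icc ((-1 : ℤ), -(K : ℤ) - 1) ((N : ℤ), (K : ℤ)) := by
    rintro ⟨i, j⟩ ⟨⟨x, y⟩, ⟨hx, hy⟩, hx1, hy1⟩
    simp only [Set.mem_Icc] at hx hy hx1 hy1
    have hb := hM x hx1
    rw [Real.norm_eq_abs, abs_le] at hb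
    rw [div_le_iff₀ hN', le_div_iff₀ hN'] at hx hy
    simp only [Set.mem_Icc, Prod.le_def]
    refine ⟨⟨?_, ?_⟩, ⟨?_, ?_⟩⟩
    · have h1 : (-1 : ℝ) ≤ i := by nlinarith
      exact_mod_cast h1
    · have h1 : (-(K : ℝ) - 1) ≤ j := by
        rw [hy1] at hy
        nlinarith
      exact_mod_cast h1
    · have h1 : (i : ℝ) ≤ N := by nlinarith
      exact_mod_cast h1
    · have h1 : (j : ℝ) ≤ K := by
        rw [hy1] at hy
        nlinarith
      exact_mod_cast h1
  exact (Set.finite_Icc _ _).subset hsub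

/-- number of squares in column `i` -/
noncomputable def col (hf : Continuous f) (hN : 0 < N) (i : ℕ) : ℝ :=
  (((finite_squares hf hN).toFinset.filter (fun p => p.1 = (i : ℤ))).card : ℝ)

lemma osc_le (hf : Continuous f) (hN : 0 < N) {i : ℕ} (hi : i < N) {x y : ℝ}
    (hx : x ∈ Set.Icc ((i : ℝ) / N) (((i : ℝ) + 1) / N))
    (hy : y ∈ Set.Icc ((i : ℝ) / N) (((i : ℝ) + 1) / N)) (hxy : f x ≤ f y) :
    f y - f x ≤ col hf hN i / N := by
  have hN' : (0 : ℝ) < N := by exact_mod_cast hN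
  have hi' : (i : ℝ) + 1 ≤ N := by exact_mod_cast hi
  rw [le_div_iff₀ hN']
  have hinj : (Finset.Icc ⌊N * f x⌋ ⌊N * f y⌋).card ≤
      ((finite_squares hf hN).toFinset.filter (fun p => p.1 = (i : ℤ))).card := by
    apply Finset.card_le_card_of_injOn (fun j => ((i : ℤ), j))
    · intro j hj
      rw [Finset.coe_Icc, Set.mem_Icc] at hj
      simp only [Finset.coe_filter, Set.mem_ofPred_eq, Set.Finite.mem_toFinset, and_true]
      have h1 : (j : ℝ) / N ≤ f y := by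
        rw [div_le_iff₀ hN', mul_comm]
        exact (Int.cast_le.2 hj.2).trans (Int.floor_le _)
      have h2 : f x ≤ ((j : ℝ) + 1) / N := by
        rw [le_div_iff₀ hN', mul_comm]
        have h3 := Int.lt_floor_add_one (N * f x)
        have h4 : ((⌊N * f x⌋ : ℤ) : ℝ) ≤ j := by exact_mod_cast hj.1
        linarith
      have h5 : max (f x) ((j : ℝ) / N) ∈ Set.uIcc (f x) (f y) := by
        rw [Set.uIcc_of_le hxy]
        exact ⟨le_max_left _ _, max_le hxy h1⟩
      obtain ⟨x', hx', hfx'⟩ := intermediate_value_uIcc (hf.continuousOn (s := Set.uIcc x y)) h5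
      have hx'' : x' ∈ Set.Icc ((i : ℝ) / N) (((i : ℝ) + 1) / N) :=
        (Set.ordConnected_Icc.uIcc_subset hx hy) hx'
      refine ⟨(x', f x'), ⟨?_, ?_⟩, ?_, rfl⟩
      · simpa using hx''
      · simp only [Set.mem_Icc]
        rw [hfx']
        refine ⟨le_max_right _ _, max_le h2 ?_⟩
        gcongr; linarith
      · constructor
        · refine le_trans ?_ hx''.1
          positivity
        · refine hx''.2.trans ?_
          rw [div_le_one hN']
          exact hi'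
    · intro a _ b _ hab
      simpa using hab
  have hcard : (N : ℝ) * f y - N * f x ≤ ((Finset.Icc ⌊N * f x⌋ ⌊N * f y⌋).card : ℝ) := by
    rw [Int.card_Icc]
    have h1 := Int.lt_floor_add_one (N * f y)
    have h2 := Int.floor_le (N * f x)
    have h3 : ((⌊N * f y⌋ + 1 - ⌊N * f x⌋ : ℤ) : ℝ) ≤ (((⌊N * f y⌋ + 1 - ⌊N * f x⌋).toNat : ℤ) : ℝ) := by
      exact_mod_cast Int.self_le_toNat _
    push_cast at h3 ⊢
    linarith
  have h4 : ((Finset.Icc ⌊N * f x⌋ ⌊N * f y⌋).card : ℝ) ≤ col hf hN i := by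
    unfold col; exact_mod_cast hinj
  nlinarith

lemma osc_abs (hf : Continuous f) (hN : 0 < N) {i : ℕ} (hi : i < N) {x y : ℝ}
    (hx : x ∈ Set.Icc ((i : ℝ) / N) (((i : ℝ) + 1) / N))
    (hy : y ∈ Set.Icc ((i : ℝ) / N) (((i : ℝ) + 1) / N)) :
    |f x - f y| ≤ col hf hN i / N := by
  rcases le_total (f x) (f y) with h | h
  · rw [abs_sub_comm, abs_of_nonneg (by linarith)]
    exact osc_le hf hN hi hx hy h
  · rw [abs_of_nonneg (by linarith)]
    exact osc_le hf hN hi hy hx h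

/-- column numbers continued periodically by one step -/
noncomputable def colp (hf : Continuous f) (hN : 0 < N) (i : ℕ) : ℝ := col hf hN (i % N)

lemma osc_absp (hf : Continuous f) (hper : Function.Periodic f 1) (hN : 0 < N) {i : ℕ} (hi : i ≤ N)
    {x y : ℝ} (hx : x ∈ Set.Icc ((i : ℝ) / N) (((i : ℝ) + 1) / N))
    (hy : y ∈ Set.Icc ((i : ℝ) / N) (((i : ℝ) + 1) / N)) :
    |f x - f y| ≤ colp hf hN i / N := by
  have hN' : (0 : ℝ) < N := by exact_mod_cast hN
  rcases hi.lt_or_eq with h | h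
  · rw [colp, Nat.mod_eq_of_lt h]
    exact osc_abs hf hN h hx hy
  · subst h
    rw [colp, Nat.mod_self]
    have h1 : f x = f (x - 1) := (hper.sub_eq x).symm
    have h2 : f y = f (y - 1) := (hper.sub_eq y).symm
    rw [h1, h2]
    have h3 : (i : ℝ) / i = 1 := div_self hN'.ne'
    have h4 : ((i : ℝ) + 1) / i = 1 + 1 / i := by rw [add_div, h3]
    rw [h3, h4] at hx hy
    apply osc_abs hf hN hN
    · constructor
      · simp; exact hx.1
      · simp only [Nat.cast_zero, zero_add]; linarith [hx.2]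
    · constructor
      · simp; exact hy.1
      · simp only [Nat.cast_zero, zero_add]; linarith [hy.2]

lemma sum_col_le (hf : Continuous f) (hN : 0 < N) :
    ∑ i ∈ Finset.range N, col hf hN i ≤ boxCount f N := by
  have h1 : boxCount f N = (finite_squares hf hN).toFinset.card := by
    rw [boxCount, Set.ncard_eq_toFinset_card _ (finite_squares hf hN)]
  rw [h1]
  unfold col
  have h2 := Finset.sum_card_fiberwise_eq_card_filter (finite_squares hf hN).toFinset
    ((Finset.range N).image (fun i : ℕ => (i : ℤ))) (fun p : ℤ × ℤ => p.1)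
  rw [Finset.sum_image (fun a _ b _ h => by exact_mod_cast h)] at h2
  have h3 := (Finset.card_filter_le (finite_squares hf hN).toFinset
    (fun p : ℤ × ℤ => p.1 ∈ (Finset.range N).image (fun i : ℕ => (i : ℤ))))
  rw [← h2] at h3
  exact_mod_cast h3

lemma sum_colp (hf : Continuous f) (hN : 0 < N) :
    ∑ i ∈ Finset.range N, (colp hf hN i + colp hf hN (i + 1)) = 2 * ∑ i ∈ Finset.range N, col hf hN i := by
  have h1 : ∑ i ∈ Finset.range N, colp hf hN i = ∑ i ∈ Finset.range N, col hf hN i := by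
    apply Finset.sum_congr rfl
    intro i hi
    rw [colp, Nat.mod_eq_of_lt (Finset.mem_range.1 hi)]
  have h2 : ∑ i ∈ Finset.range N, colp hf hN (i + 1) = ∑ i ∈ Finset.range N, colp hf hN i := by
    have h3 := Finset.sum_range_succ (colp hf hN) N
    have h4 := Finset.sum_range_succ' (colp hf hN) N
    have h5 : colp hf hN N = colp hf hN 0 := by simp [colp]
    linarith
  rw [Finset.sum_add_distrib, h2, h1]
  ring

lemma count_lower (hf : Continuous f) (hper : Function.Periodic f 1) (hN : 0 < N) :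
    (N : ℝ) ^ 2 / 2 * ∫ x in (0 : ℝ)..1, |f (x + 1 / N) - f x| ≤ boxCount f N := by
  have hN' : (0 : ℝ) < N := by exact_mod_cast hN
  have hcont : Continuous (fun x => |f (x + 1 / N) - f x|) := by fun_prop
  have h1 : ∫ x in (0 : ℝ)..1, |f (x + 1 / N) - f x| =
      ∑ i ∈ Finset.range N, ∫ x in ((i : ℝ) / N)..(((i + 1 : ℕ) : ℝ) / N), |f (x + 1 / N) - f x| := by
    rw [intervalIntegral.sum_integral_adjacent_intervals (a := fun i : ℕ => (i : ℝ) / N)]
    · simp [div_self hN'.ne']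
    · intro k _
      exact hcont.intervalIntegrable _ _
  have h2 : ∀ i ∈ Finset.range N, ∫ x in ((i : ℝ) / N)..(((i + 1 : ℕ) : ℝ) / N), |f (x + 1 / N) - f x|
      ≤ (colp hf hN i + colp hf hN (i + 1)) / N ^ 2 := by
    intro i hi
    have hi' : i < N := Finset.mem_range.1 hi
    have hle : (i : ℝ) / N ≤ ((i + 1 : ℕ) : ℝ) / N := by
      gcongr; linarith
    have hbound : ∀ x ∈ Set.Icc ((i : ℝ) / N) (((i + 1 : ℕ) : ℝ) / N), |f (x + 1 / N) - f x| ≤
        (colp hf hN i + colp hf hN (i + 1)) / N := by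
      intro x hx
      push_cast at hx
      have e1 : (((i : ℝ) + 1) / N) ∈ Set.Icc ((i : ℝ) / N) (((i : ℝ) + 1) / N) := by
        constructor
        · gcongr; linarith
        · exact le_refl _
      have e2 : (((i : ℝ) + 1) / N) ∈ Set.Icc (((i + 1 : ℕ) : ℝ) / N) ((((i + 1 : ℕ) : ℝ) + 1) / N) := by
        constructor
        · push_cast; exact le_refl _
        · push_cast; gcongr; linarith
      have e3 : x + 1 / N ∈ Set.Icc (((i + 1 : ℕ) : ℝ) / N) ((((i + 1 : ℕ) : ℝ) + 1) / N) := by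
        push_cast
        constructor
        · rw [add_div]; linarith [hx.1]
        · rw [add_div _ 1]; linarith [hx.2]
      have h3 := osc_absp hf hper hN hi'.le e1 hx
      have h4 := osc_absp hf hper hN (show i + 1 ≤ N from hi') e3 e2
      calc |f (x + 1 / N) - f x| = |(f (x + 1 / N) - f (((i : ℝ) + 1) / N)) + (f (((i : ℝ) + 1) / N) - f x)| := by
            congr 1; ring
        _ ≤ |f (x + 1 / N) - f (((i : ℝ) + 1) / N)| + |f (((i : ℝ) + 1) / N) - f x| := abs_add_le _ _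
        _ ≤ colp hf hN (i + 1) / N + colp hf hN i / N := add_le_add h4 h3
        _ = _ := by ring
    calc ∫ x in ((i : ℝ) / N)..(((i + 1 : ℕ) : ℝ) / N), |f (x + 1 / N) - f x|
        ≤ ∫ x in ((i : ℝ) / N)..(((i + 1 : ℕ) : ℝ) / N), (colp hf hN i + colp hf hN (i + 1)) / N := by
          apply intervalIntegral.integral_mono_on hle (hcont.intervalIntegrable _ _)
            (intervalIntegrable_const) hbound
      _ = (colp hf hN i + colp hf hN (i + 1)) / N ^ 2 := by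
          rw [intervalIntegral.integral_const]
          push_cast
          rw [smul_eq_mul]
          field_simp
          ring
  have h3 : ∫ x in (0 : ℝ)..1, |f (x + 1 / N) - f x| ≤
      2 * (∑ i ∈ Finset.range N, col hf hN i) / N ^ 2 := by
    rw [h1, ← sum_colp, Finset.sum_div]
    exact Finset.sum_le_sum h2
  calc (N : ℝ) ^ 2 / 2 * ∫ x in (0 : ℝ)..1, |f (x + 1 / N) - f x|
      ≤ (N : ℝ) ^ 2 / 2 * (2 * (∑ i ∈ Finset.range N, col hf hN i) / N ^ 2) := by gcongr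
    _ = ∑ i ∈ Finset.range N, col hf hN i := by field_simp
    _ ≤ _ := sum_col_le hf hN

end count

/-! ### The functional -/

section functional

/-- the test functional -/
noncomputable def I (h : ℝ) (m : ℕ) (f : ℝ → ℝ) : ℝ :=
  ∫ x in (0 : ℝ)..1, (f (x + h) - f x) * Real.cos (2 * Real.pi * m * x)

lemma abs_I_le (h : ℝ) (m : ℕ) {f : ℝ → ℝ} (hf : Continuous f) :
    |I h m f| ≤ ∫ x in (0 : ℝ)..1, |f (x + h) - f x| := by
  unfold I
  refine (intervalIntegral.abs_integral_le_integral_abs zero_le_one).trans ?_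
  apply intervalIntegral.integral_mono_on zero_le_one
  · apply Continuous.intervalIntegrable; fun_prop
  · apply Continuous.intervalIntegrable; fun_prop
  · intro x _
    rw [abs_mul]
    have := Real.abs_cos_le_one (2 * Real.pi * m * x)
    have := abs_nonneg (f (x + h) - f x)
    nlinarith

lemma I_hasSum (h : ℝ) (m : ℕ) {F : ℕ → ℝ → ℝ} {b : ℕ → ℝ} (hc : ∀ i, Continuous (F i))
    (hb : ∀ i x, |F i x| ≤ b i) (hs : Summable b) :
    HasSum (fun i => I h m (F i)) (I h m (fun x => ∑' i, F i x)) := by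
  unfold I
  have hsum : ∀ x, Summable (fun i => F i x) := fun x =>
    Summable.of_norm_bounded hs (fun i => hb i x)
  apply intervalIntegral.hasSum_integral_of_dominated_convergence (fun i _ => 2 * b i)
  · intro i
    apply Continuous.aestronglyMeasurable
    have := hc i
    fun_prop
  · intro i
    refine Filter.Eventually.of_forall (fun x _ => ?_)
    rw [Real.norm_eq_abs, abs_mul]
    have h1 := Real.abs_cos_le_one (2 * Real.pi * m * x)
    have h2 : |F i (x + h) - F i x| ≤ 2 * b i := by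
      have h3 := abs_sub (F i (x + h)) (F i x)
      have h4 := hb i (x + h)
      have h5 := hb i x
      linarith
    have := abs_nonneg (F i (x + h) - F i x)
    nlinarith [abs_nonneg (Real.cos (2 * Real.pi * m * x))]
  · exact Filter.Eventually.of_forall (fun x _ => hs.mul_left 2)
  · exact intervalIntegrable_const
  · refine Filter.Eventually.of_forall (fun x _ => ?_)
    exact ((hsum (x + h)).hasSum.sub (hsum x).hasSum).mul_right _

lemma int_cos (l : ℤ) (c : ℝ) (hl : l ≠ 0) :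
    ∫ x in (0 : ℝ)..1, Real.cos (2 * Real.pi * l * x + c) = 0 := by
  have hl' : (2 * Real.pi * (l : ℝ)) ≠ 0 := by
    have := Real.pi_pos
    have h2 : (l : ℝ) ≠ 0 := by exact_mod_cast hl
    positivity
  rw [intervalIntegral.integral_comp_mul_add (fun x => Real.cos x) hl' c, integral_cos]
  have h1 : Real.sin (2 * Real.pi * l * 1 + c) = Real.sin c := by
    rw [show 2 * Real.pi * (l : ℝ) * 1 + c = c + l * (2 * Real.pi) by ring]
    exact Real.sin_add_int_mul_two_pi c l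
  rw [h1]
  simp

lemma int_cos_cos (M m : ℕ) (hM : 0 < M) (hm : 0 < m) (c : ℝ) :
    ∫ x in (0 : ℝ)..1, Real.cos (2 * Real.pi * M * x + c) * Real.cos (2 * Real.pi * m * x) =
      if M = m then Real.cos c / 2 else 0 := by
  have h1 : ∀ x : ℝ, Real.cos (2 * Real.pi * M * x + c) * Real.cos (2 * Real.pi * m * x) =
      (1 / 2) * Real.cos (2 * Real.pi * ((M : ℤ) + (m : ℤ) : ℤ) * x + c) +
        (1 / 2) * Real.cos (2 * Real.pi * ((M : ℤ) - (m : ℤ) : ℤ) * x + c) := by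
    intro x
    push_cast
    rw [show 2 * Real.pi * ((M : ℝ) + m) * x + c = (2 * Real.pi * M * x + c) + 2 * Real.pi * m * x by ring,
      show 2 * Real.pi * ((M : ℝ) - m) * x + c = (2 * Real.pi * M * x + c) - 2 * Real.pi * m * x by ring,
      Real.cos_add (2 * Real.pi * M * x + c), Real.cos_sub (2 * Real.pi * M * x + c)]
    ring
  simp_rw [h1]
  rw [intervalIntegral.integral_add (by apply Continuous.intervalIntegrable; fun_prop)
    (by apply Continuous.intervalIntegrable; fun_prop), intervalIntegral.integral_const_mul,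
    intervalIntegral.integral_const_mul, int_cos _ _ (by omega)]
  by_cases h : M = m
  · subst h
    simp
    ring
  · rw [int_cos _ _ (by omega), if_neg h]
    ring

lemma I_cos (h : ℝ) (M m : ℕ) (hM : 0 < M) (hm : 0 < m) :
    I h m (fun x => Real.cos (2 * Real.pi * M * x)) =
      if M = m then (Real.cos (2 * Real.pi * m * h) - 1) / 2 else 0 := by
  unfold I
  have h1 : ∀ x : ℝ, (Real.cos (2 * Real.pi * M * (x + h)) - Real.cos (2 * Real.pi * M * x)) *
      Real.cos (2 * Real.pi * m * x) =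
      Real.cos (2 * Real.pi * M * x + 2 * Real.pi * M * h) * Real.cos (2 * Real.pi * m * x) -
      Real.cos (2 * Real.pi * M * x + 0) * Real.cos (2 * Real.pi * m * x) := by
    intro x
    rw [show 2 * Real.pi * M * (x + h) = 2 * Real.pi * M * x + 2 * Real.pi * M * h by ring, add_zero]
    ring
  simp_rw [h1]
  rw [intervalIntegral.integral_sub (by apply Continuous.intervalIntegrable; fun_prop)
    (by apply Continuous.intervalIntegrable; fun_prop), int_cos_cos M m hM hm, int_cos_cos M m hM hm]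
  by_cases hMm : M = m
  · subst hMm; simp; ring
  · simp [hMm]

lemma I_const_mul (h : ℝ) (m : ℕ) (c : ℝ) (f : ℝ → ℝ) : I h m (fun x => c * f x) = c * I h m f := by
  unfold I
  rw [← intervalIntegral.integral_const_mul]
  congr 1; ext x; ring

end functional

/-! ### The Weierstrass function -/

section weierstrass

/-- `∑_j r^j cos(2π 2^j x)` -/
noncomputable def Wf (r : ℝ) (x : ℝ) : ℝ := ∑' j : ℕ, r ^ j * Real.cos (2 * Real.pi * ((2 ^ j : ℕ) : ℝ) * x)

variable {r : ℝ} (hr0 : 0 < r) (hr1 : r < 1)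
include hr0 hr1

lemma term_bound (K x : ℝ) (j : ℕ) : |r ^ j * Real.cos (2 * Real.pi * ((2 ^ j : ℕ) : ℝ) * (K * x))| ≤ r ^ j := by
  rw [abs_mul, abs_of_pos (by positivity)]
  have := Real.abs_cos_le_one (2 * Real.pi * ((2 ^ j : ℕ) : ℝ) * (K * x))
  have : 0 < r ^ j := by positivity
  nlinarith

lemma term_bound' (x : ℝ) (j : ℕ) : |r ^ j * Real.cos (2 * Real.pi * ((2 ^ j : ℕ) : ℝ) * x)| ≤ r ^ j := by
  have := term_bound hr0 hr1 1 x j
  simpa using this

lemma Wf_cont : Continuous (Wf r) := by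
  unfold Wf
  apply continuous_tsum (u := fun j : ℕ => r ^ j)
  · intro j; fun_prop
  · exact summable_geometric_of_lt_one hr0.le hr1
  · intro j x
    exact term_bound' hr0 hr1 x j

omit hr0 hr1 in
lemma Wf_per : Function.Periodic (Wf r) 1 := by
  intro x
  unfold Wf
  congr 1
  ext j
  congr 1
  rw [show 2 * Real.pi * ((2 ^ j : ℕ) : ℝ) * (x + 1) =
    2 * Real.pi * ((2 ^ j : ℕ) : ℝ) * x + ((2 ^ j : ℕ) : ℝ) * (2 * Real.pi) by ring]
  exact Real.cos_add_nat_mul_two_pi _ _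

lemma Wf_bound (x : ℝ) : |Wf r x| ≤ (1 - r)⁻¹ := by
  rw [← tsum_geometric_of_lt_one hr0.le hr1, ← Real.norm_eq_abs]
  exact tsum_of_norm_bounded (summable_geometric_of_lt_one hr0.le hr1).hasSum
    (fun j => term_bound' hr0 hr1 x j)

lemma I_Wf (h : ℝ) (m K : ℕ) (hm : 0 < m) (hK : 0 < K) :
    HasSum (fun j : ℕ => r ^ j * (if 2 ^ j * K = m then (Real.cos (2 * Real.pi * m * h) - 1) / 2 else 0))
      (I h m (fun x => Wf r (K * x))) := by
  have h1 := I_hasSum h m (F := fun j x => r ^ j * Real.cos (2 * Real.pi * ((2 ^ j : ℕ) : ℝ) * (K * x)))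
    (b := fun j => r ^ j) (fun j => by fun_prop) (fun j x => term_bound hr0 hr1 K x j)
    (summable_geometric_of_lt_one hr0.le hr1)
  have h2 : ∀ j : ℕ, I h m (fun x => r ^ j * Real.cos (2 * Real.pi * ((2 ^ j : ℕ) : ℝ) * (K * x))) =
      r ^ j * (if 2 ^ j * K = m then (Real.cos (2 * Real.pi * m * h) - 1) / 2 else 0) := by
    intro j
    rw [I_const_mul]
    have h3 := I_cos h (2 ^ j * K) m (by positivity) hm
    rw [← h3]
    congr 2
    ext x
    push_cast
    ring_nf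
  simp_rw [h2] at h1
  exact h1

lemma I_Wf_nonpos (h : ℝ) (m K : ℕ) (hm : 0 < m) (hK : 0 < K) :
    I h m (fun x => Wf r (K * x)) ≤ 0 := by
  have h1 := I_Wf hr0 hr1 h m K hm hK
  refine h1.nonpos (fun j => ?_)
  have h2 := Real.cos_le_one (2 * Real.pi * m * h)
  have h3 : 0 < r ^ j := by positivity
  split_ifs
  · nlinarith
  · simp

lemma I_Wf_one (h : ℝ) (i : ℕ) :
    I h (2 ^ i) (fun x => Wf r (((1 : ℕ) : ℝ) * x)) = r ^ i * ((Real.cos (2 * Real.pi * ((2 ^ i : ℕ) : ℝ) * h) - 1) / 2) := by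
  have h1 := I_Wf hr0 hr1 h (2 ^ i) 1 (by positivity) one_pos
  refine h1.unique ?_
  have h2 := hasSum_ite_eq i (r ^ i * ((Real.cos (2 * Real.pi * ((2 ^ i : ℕ) : ℝ) * h) - 1) / 2))
  refine h2.congr_fun ?_
  intro j
  by_cases hj : j = i
  · subst hj; simp
  · have : (2 : ℕ) ^ j ≠ 2 ^ i := fun h => hj (Nat.pow_right_injective (le_refl 2) h)
    simp [hj, this]

/-! ### The function `G_δ` -/

lemma G_summable {δ : ℝ} (hδ : 0 < δ) : Summable (fun n : ℕ => (1 - r)⁻¹ / ((n : ℝ) + 1) ^ (1 + δ)) := by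
  have h1 : Summable (fun n : ℕ => 1 / ((n : ℝ)) ^ (1 + δ)) :=
    Real.summable_one_div_nat_rpow.2 (by linarith)
  have h2 := (summable_nat_add_iff 1).2 h1
  have h3 := h2.mul_left (1 - r)⁻¹
  refine h3.congr (fun n => ?_)
  push_cast
  rw [mul_one_div]

lemma G_term_bound {δ : ℝ} (n : ℕ) (x : ℝ) :
    |Wf r (((n : ℝ) + 1) ^ 2 * x) / ((n : ℝ) + 1) ^ (1 + δ)| ≤ (1 - r)⁻¹ / ((n : ℝ) + 1) ^ (1 + δ) := by
  have h0 : 0 < ((n : ℝ) + 1) ^ (1 + δ) := by positivity
  rw [abs_div, abs_of_pos h0]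
  have := Wf_bound hr0 hr1 (((n : ℝ) + 1) ^ 2 * x)
  gcongr

lemma G_cont {δ : ℝ} (hδ : 0 < δ) : Continuous (G δ (Wf r)) := by
  unfold G
  apply continuous_tsum (u := fun n : ℕ => (1 - r)⁻¹ / ((n : ℝ) + 1) ^ (1 + δ))
  · intro n
    have := Wf_cont hr0 hr1
    fun_prop
  · exact G_summable hr0 hr1 hδ
  · intro n x
    exact G_term_bound hr0 hr1 n x

omit hr0 hr1 in
lemma G_per {δ : ℝ} : Function.Periodic (G δ (Wf r)) 1 := by
  intro x
  unfold G
  congr 1
  ext n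
  congr 1
  have h1 : ((n : ℝ) + 1) ^ 2 * (x + 1) = ((n : ℝ) + 1) ^ 2 * x + (((n + 1) ^ 2 : ℕ) : ℝ) * 1 := by
    push_cast; ring
  rw [h1]
  exact (Wf_per.nat_mul ((n + 1) ^ 2)) _

lemma I_G {δ : ℝ} (hδ : 0 < δ) (h : ℝ) (i : ℕ) :
    I h (2 ^ i) (G δ (Wf r)) ≤ r ^ i * ((Real.cos (2 * Real.pi * ((2 ^ i : ℕ) : ℝ) * h) - 1) / 2) := by
  have hcont := Wf_cont hr0 hr1
  have h1 := I_hasSum h (2 ^ i) (F := fun n x => Wf r (((n : ℝ) + 1) ^ 2 * x) / ((n : ℝ) + 1) ^ (1 + δ))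
    (b := fun n : ℕ => (1 - r)⁻¹ / ((n : ℝ) + 1) ^ (1 + δ)) (fun n => by fun_prop)
    (fun n x => G_term_bound hr0 hr1 n x) (G_summable hr0 hr1 hδ)
  have h2 : ∀ n : ℕ, I h (2 ^ i) (fun x => Wf r (((n : ℝ) + 1) ^ 2 * x) / ((n : ℝ) + 1) ^ (1 + δ)) =
      (((n : ℝ) + 1) ^ (1 + δ))⁻¹ * I h (2 ^ i) (fun x => Wf r ((((n + 1) ^ 2 : ℕ) : ℝ) * x)) := by
    intro n
    rw [← I_const_mul]
    congr 1
    ext x
    push_cast
    ring
  have h3 : I h (2 ^ i) (fun x => ∑' n : ℕ, Wf r (((n : ℝ) + 1) ^ 2 * x) / ((n : ℝ) + 1) ^ (1 + δ)) =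
    I h (2 ^ i) (G δ (Wf r)) := rfl
  rw [h3] at h1
  have h4 := h1.neg
  have h5 := le_hasSum h4 0 (fun n _ => by
    rw [h2]
    have h6 := I_Wf_nonpos hr0 hr1 h (2 ^ i) ((n + 1) ^ 2) (by positivity) (by positivity)
    have h7 : 0 < (((n : ℝ) + 1) ^ (1 + δ))⁻¹ := by positivity
    nlinarith)
  rw [h2 0] at h5
  have h8 := I_Wf_one hr0 hr1 h i
  simp only [zero_add, one_pow, Nat.cast_zero, Real.one_rpow, inv_one, one_mul] at h5
  rw [h8] at h5
  linarith

/-- lower bound for the number of squares -/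
lemma count_G {δ : ℝ} (hδ : 0 < δ) (N i : ℕ) (h1 : 2 ^ i * 2 ≤ N) (h2 : N ≤ 2 ^ i * 4) :
    (N : ℝ) ^ 2 / 4 * r ^ i ≤ boxCount (G δ (Wf r)) N := by
  have hN : 0 < N := lt_of_lt_of_le (by positivity) h1
  have hN' : (0 : ℝ) < N := by exact_mod_cast hN
  have h3 := count_lower (G_cont hr0 hr1 hδ) (G_per (r := r) (δ := δ)) hN
  refine le_trans ?_ h3
  have h4 := abs_I_le (1 / N) (2 ^ i) (G_cont hr0 hr1 hδ)
  have h5 := I_G hr0 hr1 hδ (1 / N) i
  have h6 : Real.cos (2 * Real.pi * ((2 ^ i : ℕ) : ℝ) * (1 / N)) ≤ 0 := by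
    have h7 : (((2 ^ i : ℕ) : ℝ)) * 2 ≤ N := by exact_mod_cast h1
    have h8 : (N : ℝ) ≤ ((2 ^ i : ℕ) : ℝ) * 4 := by exact_mod_cast h2
    have h9 : 2 * Real.pi * ((2 ^ i : ℕ) : ℝ) * (1 / N) = Real.pi * (2 * ((2 ^ i : ℕ) : ℝ) / N) := by
      field_simp
    rw [h9]
    have h10 : 1 / 2 ≤ 2 * ((2 ^ i : ℕ) : ℝ) / N := by
      rw [le_div_iff₀ hN']; linarith
    have h11 : 2 * ((2 ^ i : ℕ) : ℝ) / N ≤ 1 := by
      rw [div_le_one hN']; linarith
    apply Real.cos_nonpos_of_pi_div_two_le_of_le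
    · have := Real.pi_pos; nlinarith
    · have := Real.pi_pos; nlinarith
  have h7 : r ^ i / 2 ≤ |I (1 / N) (2 ^ i) (G δ (Wf r))| := by
    have h8 : 0 < r ^ i := by positivity
    have h9 := neg_abs_le (I (1 / N) (2 ^ i) (G δ (Wf r)))
    nlinarith
  have h8 : r ^ i / 2 ≤ ∫ x in (0 : ℝ)..1, |G δ (Wf r) (x + 1 / N) - G δ (Wf r) x| := h7.trans h4
  calc (N : ℝ) ^ 2 / 4 * r ^ i = (N : ℝ) ^ 2 / 2 * (r ^ i / 2) := by ring
    _ ≤ _ := by gcongr

/-! ### Fourier coefficients of `Wf` -/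

omit hr0 hr1 in
lemma int_exp (l : ℤ) : ∫ x in (0 : ℝ)..1, Complex.exp ((2 * Real.pi * l * Complex.I) * x) =
    if l = 0 then 1 else 0 := by
  by_cases hl : l = 0
  · subst hl; simp
  · have hc : (2 * Real.pi * l * Complex.I : ℂ) ≠ 0 := by
      have h1 : (l : ℂ) ≠ 0 := by exact_mod_cast hl
      have h2 : (Real.pi : ℂ) ≠ 0 := by exact_mod_cast Real.pi_ne_zero
      simp [h1]
    rw [integral_exp_mul_complex hc, if_neg hl]
    have h1 : Complex.exp (2 * Real.pi * l * Complex.I * ((1 : ℝ) : ℂ)) = 1 := by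
      rw [show (2 * Real.pi * l * Complex.I * ((1 : ℝ) : ℂ) : ℂ) = l * (2 * Real.pi * Complex.I) by
        push_cast; ring]
      exact Complex.exp_int_mul_two_pi_mul_I l
    rw [h1]
    simp

omit hr0 hr1 in
lemma fc_cos (M : ℕ) (k : ℤ) (hM : 0 < M) (hk : 0 < k) :
    ∫ x in (0 : ℝ)..1, ((Real.cos (2 * Real.pi * (M : ℝ) * x) : ℝ) : ℂ) *
      Complex.exp (-(2 * Real.pi * k * x) * Complex.I) = if (M : ℤ) = k then 1 / 2 else 0 := by
  have h1 : ∀ x : ℝ, ((Real.cos (2 * Real.pi * (M : ℝ) * x) : ℝ) : ℂ) *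
      Complex.exp (-(2 * Real.pi * k * x) * Complex.I) =
      (1 / 2) * Complex.exp ((2 * Real.pi * (((M : ℤ) - k : ℤ) : ℂ) * Complex.I) * x) +
      (1 / 2) * Complex.exp ((2 * Real.pi * ((-(M : ℤ) - k : ℤ) : ℂ) * Complex.I) * x) := by
    intro x
    push_cast
    rw [Complex.cos]
    have e1 : Complex.exp (2 * Real.pi * ((M : ℂ) - k) * Complex.I * x) =
        Complex.exp (2 * Real.pi * M * x * Complex.I) * Complex.exp (-(2 * Real.pi * k * x) * Complex.I) := by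
      rw [← Complex.exp_add]; congr 1; ring
    have e2 : Complex.exp (2 * Real.pi * (-(M : ℂ) - k) * Complex.I * x) =
        Complex.exp (-(2 * Real.pi * M * x) * Complex.I) * Complex.exp (-(2 * Real.pi * k * x) * Complex.I) := by
      rw [← Complex.exp_add]; congr 1; ring
    rw [e1, e2]
    ring
  simp_rw [h1]
  rw [intervalIntegral.integral_add (by apply Continuous.intervalIntegrable; fun_prop)
    (by apply Continuous.intervalIntegrable; fun_prop), intervalIntegral.integral_const_mul,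
    intervalIntegral.integral_const_mul, int_exp, int_exp, if_neg (show ¬ (-(M : ℤ) - k = 0) by omega)]
  by_cases h : (M : ℤ) = k
  · rw [if_pos (by omega), if_pos h]; norm_num
  · rw [if_neg (by omega), if_neg h]; norm_num

lemma fc_hasSum (k : ℤ) (hk : 0 < k) :
    HasSum (fun j : ℕ => ((r : ℂ) ^ j) * (if ((2 ^ j : ℕ) : ℤ) = k then 1 / 2 else 0)) (fc (Wf r) k) := by
  have h1 : ∀ j : ℕ, ((r : ℂ) ^ j) * (if ((2 ^ j : ℕ) : ℤ) = k then 1 / 2 else 0) =
      ∫ x in (0 : ℝ)..1, (((r ^ j * Real.cos (2 * Real.pi * ((2 ^ j : ℕ) : ℝ) * x) : ℝ) : ℂ)) *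
        Complex.exp (-(2 * Real.pi * k * x) * Complex.I) := by
    intro j
    rw [← fc_cos (2 ^ j) k (by positivity) hk, ← intervalIntegral.integral_const_mul]
    congr 1
    ext x
    push_cast
    ring
  simp_rw [h1]
  unfold fc
  have hsum : ∀ x, Summable (fun j : ℕ => r ^ j * Real.cos (2 * Real.pi * ((2 ^ j : ℕ) : ℝ) * x)) := fun x =>
    Summable.of_norm_bounded (summable_geometric_of_lt_one hr0.le hr1) (fun j => term_bound' hr0 hr1 x j)
  apply intervalIntegral.hasSum_integral_of_dominated_convergence (fun j _ => r ^ j)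
  · intro j
    apply Continuous.aestronglyMeasurable
    fun_prop
  · intro j
    refine Filter.Eventually.of_forall (fun x _ => ?_)
    rw [norm_mul, Complex.norm_real, Real.norm_eq_abs]
    have h2 : ‖Complex.exp (-(2 * Real.pi * k * x) * Complex.I)‖ = 1 := by
      have h3 : (-(2 * Real.pi * k * x) * Complex.I : ℂ) = ((-(2 * Real.pi * k * x) : ℝ) : ℂ) * Complex.I := by
        push_cast; ring
      rw [h3]
      exact Complex.norm_exp_ofReal_mul_I _
    rw [h2, mul_one]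
    exact term_bound' hr0 hr1 x j
  · exact Filter.Eventually.of_forall (fun x _ => summable_geometric_of_lt_one hr0.le hr1)
  · exact intervalIntegrable_const
  · refine Filter.Eventually.of_forall (fun x _ => ?_)
    apply HasSum.mul_right
    exact_mod_cast (hsum x).hasSum

lemma fc_pow (i : ℕ) : fc (Wf r) (2 ^ i) = ((r ^ i / 2 : ℝ) : ℂ) := by
  refine (fc_hasSum hr0 hr1 (2 ^ i) (by positivity)).unique ?_
  have h2 := hasSum_ite_eq i (((r ^ i / 2 : ℝ) : ℂ))
  refine h2.congr_fun ?_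
  intro j
  by_cases hj : j = i
  · subst hj; simp; ring
  · have h3 : ((2 ^ j : ℕ) : ℤ) ≠ 2 ^ i := fun h => hj (Nat.pow_right_injective (le_refl 2) (by exact_mod_cast h))
    rw [if_neg h3]; simp [hj]

lemma fc_zero (k : ℤ) (hk : 0 < k) (h : ∀ j : ℕ, ((2 ^ j : ℕ) : ℤ) ≠ k) : fc (Wf r) k = 0 := by
  refine (fc_hasSum hr0 hr1 k hk).unique ?_
  convert hasSum_zero with j
  rw [if_neg (h j)]; simp

lemma fc_nonneg (k : ℤ) (hk : 0 < k) : ∃ c : ℝ, 0 ≤ c ∧ fc (Wf r) k = c := by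
  by_cases h : ∃ j : ℕ, ((2 ^ j : ℕ) : ℤ) = k
  · obtain ⟨j, rfl⟩ := h
    exact ⟨r ^ j / 2, by positivity, by rw [← fc_pow hr0 hr1 j]; congr 1⟩
  · push Not at h
    exact ⟨0, le_refl _, by rw [fc_zero hr0 hr1 k hk h]; simp⟩

lemma fc_summable (t : ℝ) (ht : r * (2 : ℝ) ^ t < 1) :
    Summable (fun k : ℕ => ‖fc (Wf r) ((k : ℤ) + 1)‖ * ((k : ℝ) + 1) ^ t) := by
  have hinj : Function.Injective (fun j : ℕ => 2 ^ j - 1) := by
    intro a b hab
    have h1 : 1 ≤ 2 ^ a := Nat.one_le_two_pow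
    have h2 : 1 ≤ 2 ^ b := Nat.one_le_two_pow
    simp only at hab
    exact Nat.pow_right_injective (le_refl 2) (by simp only; omega)
  rw [← hinj.summable_iff]
  · have h1 : ((fun k : ℕ => ‖fc (Wf r) ((k : ℤ) + 1)‖ * ((k : ℝ) + 1) ^ t) ∘ fun j : ℕ => 2 ^ j - 1) =
      fun j : ℕ => (1 / 2) * (r * (2 : ℝ) ^ t) ^ j := by
      ext j
      have h2 : 1 ≤ 2 ^ j := Nat.one_le_two_pow
      have h3 : (((2 ^ j - 1 : ℕ) : ℤ) + 1) = 2 ^ j := by
        rw [Nat.cast_sub h2]; push_cast; ring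
      have h4 : (((2 ^ j - 1 : ℕ) : ℝ) + 1) = (2 : ℝ) ^ j := by
        rw [Nat.cast_sub h2]; push_cast; ring
      simp only [Function.comp]
      rw [h3, h4, fc_pow hr0 hr1, Complex.norm_real, Real.norm_of_nonneg (by positivity), mul_pow,
        ← Real.rpow_natCast 2 j, ← Real.rpow_natCast ((2 : ℝ) ^ t) j, ← Real.rpow_mul (by norm_num),
        ← Real.rpow_mul (by norm_num), mul_comm (j : ℝ) t]
      ring
    rw [h1]
    apply Summable.mul_left
    apply summable_geometric_of_lt_one _ ht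
    positivity
  · intro k hk
    rw [fc_zero hr0 hr1 _ (by omega), norm_zero, zero_mul]
    intro j hj
    apply hk
    refine ⟨j, ?_⟩
    have h2 : 1 ≤ 2 ^ j := Nat.one_le_two_pow
    simp only
    omega

lemma condH {δ : ℝ} (ε : ℝ) (hε : 0 < ε) (ht : r * (2 : ℝ) ^ ((ε + δ) / 2) < 1) : CondH δ (Wf r) :=
  ⟨ε, hε, fc_summable hr0 hr1 _ ht⟩

lemma condNV {δ : ℝ} (ht : r * (2 : ℝ) ^ (δ / 2) < 1) : CondNV δ (Wf r) := by
  refine ⟨1, one_pos, squarefree_one, ?_⟩
  have h1 := fc_summable hr0 hr1 (δ / 2) ht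
  have hinj : Function.Injective (fun m : ℕ => (m + 1) ^ 2 - 1) := by
    intro a b hab
    simp only at hab
    have h2 : 1 ≤ (a + 1) ^ 2 := Nat.one_le_pow _ _ (by omega)
    have h3 : 1 ≤ (b + 1) ^ 2 := Nat.one_le_pow _ _ (by omega)
    have h4 : (a + 1) ^ 2 = (b + 1) ^ 2 := by omega
    have h5 := Nat.pow_left_injective (by norm_num : 2 ≠ 0) h4
    omega
  choose c hc0 hc using fun (k : ℕ) => fc_nonneg hr0 hr1 ((k : ℤ) + 1) (by omega)
  have h2 : Summable (fun m : ℕ => c ((m + 1) ^ 2 - 1) * (((m : ℝ) + 1) ^ 2) ^ (δ / 2)) := by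
    have h3 := h1.comp_injective hinj
    refine h3.congr (fun m => ?_)
    have h4 : 1 ≤ (m + 1) ^ 2 := Nat.one_le_pow _ _ (by omega)
    simp only [Function.comp]
    rw [hc, Complex.norm_real, Real.norm_of_nonneg (hc0 _), Nat.cast_sub h4]
    push_cast
    rw [sub_add_cancel]
  have h3 : ∀ m : ℕ, fc (Wf r) (((m : ℤ) + 1) ^ 2 * (1 : ℕ)) *
      (((((m : ℝ) + 1) ^ 2 * (1 : ℕ)) ^ (δ / 2) : ℝ) : ℂ) =
      ((c ((m + 1) ^ 2 - 1) * (((m : ℝ) + 1) ^ 2) ^ (δ / 2) : ℝ) : ℂ) := by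
    intro m
    have h4 : 1 ≤ (m + 1) ^ 2 := Nat.one_le_pow _ _ (by omega)
    have h5 : ((m : ℤ) + 1) ^ 2 * (1 : ℕ) = (((m + 1) ^ 2 - 1 : ℕ) : ℤ) + 1 := by
      rw [Nat.cast_sub h4]; push_cast; ring
    rw [h5, hc]
    push_cast
    rw [mul_one]
  simp_rw [h3]
  rw [← Complex.ofReal_tsum]
  have h4 : 0 < ∑' m : ℕ, c ((m + 1) ^ 2 - 1) * (((m : ℝ) + 1) ^ 2) ^ (δ / 2) := by
    have hc00 : c 0 = 1 / 2 := by
      have h5 := hc 0
      have h6 := fc_pow hr0 hr1 0
      simp only [pow_zero] at h6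
      simp only [Nat.cast_zero, zero_add] at h5
      rw [h5] at h6
      exact_mod_cast h6
    have h5 : c ((0 + 1) ^ 2 - 1) * ((((0 : ℕ) : ℝ) + 1) ^ 2) ^ (δ / 2) ≤
        ∑' m : ℕ, c ((m + 1) ^ 2 - 1) * (((m : ℝ) + 1) ^ 2) ^ (δ / 2) :=
      h2.le_tsum 0 (fun m _ => mul_nonneg (hc0 _) (by positivity))
    have h6 : c ((0 + 1) ^ 2 - 1) * ((((0 : ℕ) : ℝ) + 1) ^ 2) ^ (δ / 2) = 1 / 2 := by
      simp [hc00]
    rw [h6] at h5
    linarith
  exact_mod_cast h4.ne'

end weierstrass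

/-! ### Box dimension -/

/-- The number of squares is at least `N^(2-α)/4`. -/
lemma count_rpow {δ α : ℝ} (hδ : 0 < δ) (hα : 0 < α) (N : ℕ) (hN : 2 ≤ N) :
    (N : ℝ) ^ (2 - α) / 4 ≤ boxCount (G δ (Wf ((2 : ℝ) ^ (-α)))) N := by
  have hr0 : (0 : ℝ) < (2 : ℝ) ^ (-α) := by positivity
  have hr1 : (2 : ℝ) ^ (-α) < 1 := Real.rpow_lt_one_of_one_lt_of_neg (by norm_num) (by linarith)
  have hN' : (0 : ℝ) < N := by exact_mod_cast (by omega : 0 < N)
  obtain ⟨i, h1, h2⟩ : ∃ i : ℕ, 2 ^ i * 2 ≤ N ∧ N ≤ 2 ^ i * 4 := by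
    refine ⟨Nat.log 2 N - 1, ?_, ?_⟩
    · have h3 : 1 ≤ Nat.log 2 N := Nat.log_pos (by norm_num) hN
      rw [← pow_succ, Nat.sub_add_cancel h3]
      exact Nat.pow_log_le_self 2 (by omega)
    · have h3 : 1 ≤ Nat.log 2 N := Nat.log_pos (by norm_num) hN
      have h4 : N < 2 ^ (Nat.log 2 N + 1) := Nat.lt_pow_succ_log_self (by norm_num) N
      have h5 : 2 ^ (Nat.log 2 N - 1) * 4 = 2 ^ (Nat.log 2 N + 1) := by
        rw [show (4 : ℕ) = 2 ^ 2 by norm_num, ← pow_add]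
        congr 1
        omega
      omega
  refine le_trans ?_ (count_G hr0 hr1 hδ N i h1 h2)
  have h3 : (N : ℝ) ^ (-α) ≤ ((2 : ℝ) ^ (-α)) ^ i := by
    rw [← Real.rpow_natCast, ← Real.rpow_mul (by norm_num), mul_comm, Real.rpow_mul (by norm_num),
      Real.rpow_natCast]
    apply Real.rpow_le_rpow_of_nonpos (by positivity) _ (by linarith)
    have h4 : ((2 ^ i * 2 : ℕ) : ℝ) ≤ N := by exact_mod_cast h1
    push_cast at h4
    have : (0 : ℝ) < 2 ^ i := by positivity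
    linarith
  have h4 : (N : ℝ) ^ (2 - α) = (N : ℝ) ^ 2 * (N : ℝ) ^ (-α) := by
    rw [sub_eq_add_neg, Real.rpow_add hN']
    congr 1
    exact_mod_cast Real.rpow_natCast (N : ℝ) 2
  rw [h4]
  have h5 : (0 : ℝ) < (N : ℝ) ^ 2 := by positivity
  nlinarith

lemma dim_lower {δ α : ℝ} (hδ : 0 < δ) (hα : 0 < α) (s : ℝ) (hs : s < 2 - α) :
    (s : EReal) < lowerBoxDim (G δ (Wf ((2 : ℝ) ^ (-α)))) := by
  obtain ⟨s', hs1, hs2⟩ := exists_between hs
  refine lt_of_lt_of_le (b := (s' : EReal)) (by exact_mod_cast hs1) ?_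
  unfold lowerBoxDim
  apply le_liminf_of_le
  · isBoundedDefault
  have h1 : Tendsto (fun N : ℕ => Real.log N) atTop atTop :=
    Real.tendsto_log_atTop.comp tendsto_natCast_atTop_atTop
  have h2 := h1.eventually (eventually_ge_atTop (Real.log 4 / (2 - α - s')))
  filter_upwards [h2, eventually_ge_atTop 2] with N hN hN2
  have hN' : (1 : ℝ) < N := by exact_mod_cast (by omega : 1 < N)
  have hlog : 0 < Real.log N := Real.log_pos hN'
  have h3 := count_rpow (δ := δ) hδ hα N hN2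
  have h4 : 0 < (N : ℝ) ^ (2 - α) / 4 := by positivity
  have h5 := Real.log_le_log h4 h3
  rw [Real.log_div (by positivity) (by norm_num), Real.log_rpow (by linarith)] at h5
  have h6 : s' ≤ Real.log (boxCount (G δ (Wf ((2 : ℝ) ^ (-α)))) N) / Real.log N := by
    rw [le_div_iff₀ hlog]
    rw [div_le_iff₀ (by linarith)] at hN
    linarith
  exact_mod_cast h6

lemma lower_le_upper (f : ℝ → ℝ) : lowerBoxDim f ≤ upperBoxDim f := by
  unfold lowerBoxDim upperBoxDim
  exact liminf_le_limsup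

/-- **Main theorem.** For every `δ ∈ (0,1]` and every `s < 2 - δ/2` there is a continuous
`1`-periodic `g` satisfying (H) and (NV) such that the lower box dimension of the graph of `G_δ` over
`[0,1]` exceeds `s` and its upper box dimension exceeds `7/4 - δ/2`. -/
theorem result (δ : ℝ) (hδ : 0 < δ) (_hδ1 : δ ≤ 1) (s : ℝ) (hs : s < 2 - δ / 2) :
    ∃ g : ℝ → ℝ, Continuous g ∧ Function.Periodic g 1 ∧ CondH δ g ∧ CondNV δ g ∧
      (s : EReal) < lowerBoxDim (G δ g) ∧ ((7 / 4 - δ / 2 : ℝ) : EReal) < upperBoxDim (G δ g) := by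
  obtain ⟨α, hα1, hα2⟩ : ∃ α, δ / 2 < α ∧ α < min (2 - s) (δ / 2 + 1 / 4) :=
    exists_between (lt_min (by linarith) (by linarith))
  have hα3 := (lt_min_iff.1 hα2).1
  have hα4 := (lt_min_iff.1 hα2).2
  have hα : 0 < α := by linarith
  have hr0 : (0 : ℝ) < (2 : ℝ) ^ (-α) := by positivity
  have hr1 : (2 : ℝ) ^ (-α) < 1 := Real.rpow_lt_one_of_one_lt_of_neg (by norm_num) (by linarith)
  have hlt : ∀ t : ℝ, t < α → (2 : ℝ) ^ (-α) * (2 : ℝ) ^ t < 1 := by
    intro t ht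
    rw [← Real.rpow_add (by norm_num)]
    exact Real.rpow_lt_one_of_one_lt_of_neg (by norm_num) (by linarith)
  refine ⟨Wf ((2 : ℝ) ^ (-α)), Wf_cont hr0 hr1, Wf_per, ?_, ?_, ?_, ?_⟩
  · exact condH hr0 hr1 (α - δ / 2) (by linarith) (hlt _ (by linarith))
  · exact condNV hr0 hr1 (hlt _ hα1)
  · exact dim_lower hδ hα s (by linarith)
  · exact lt_of_lt_of_le (dim_lower hδ hα (7 / 4 - δ / 2) (by linarith)) (lower_le_upper _)

end Pool.Agent.Results.MP_dace02_an.BoxDimFails
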